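import Pool.Agent.Helper27.CB.St2

/-!
# Project CB (MP_b21509_co), module HXG: the second family of p-hexagons
-/

set_option autoImplicit false

open MeasureTheory Set
open scoped ENNReal Pointwise

namespace Pool.Agent.Helper81.CB

open Pool.Agent.Helper27.CB

private lemma rot_add_HXG (φ ψ : ℝ) (q : P2) : rot φ (rot ψ q) = rot (φ + ψ) q := by
  unfold rot
  rw [Real.cos_add, Real.sin_add]
  ext <;> simp only <;> ring

private lemma rot_neg_HXG (ψ : ℝ) (q : P2) :
    rot (-ψ) q = (q.1 * Real.cos ψ + q.2 * Real.sin ψ, q.2 * Real.cos ψ - q.1 * Real.sin ψ) := by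
  unfold rot
  rw [Real.cos_neg, Real.sin_neg]
  ext <;> simp only <;> ring

private lemma rot_inv_HXG (ψ : ℝ) (q : P2) : rot ψ (rot (-ψ) q) = q := by
  rw [rot_add_HXG, add_neg_cancel]
  unfold rot
  rw [Real.cos_zero, Real.sin_zero]
  ext <;> simp

theorem hHXG (hRBD : StRBD) (hSLK : StSLK) (_hSLC : StSLC) : StHXG := by
  intro K F hK hHex φ s hs0 hsc
  set L := rb K φ with hL
  have hLB : Bd L := (hRBD K hK φ).1
  set c := ho L with hc
  have hHexL : ∀ ψ, HexB (rb L ψ) F := by
    intro ψ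
    have : rb L ψ = rb K (φ + ψ) := by
      ext q
      show rot φ (rot ψ q) ∈ K ↔ rot (φ + ψ) q ∈ K
      rw [rot_add_HXG]
    rw [this]
    exact hHex _
  obtain ⟨k1, k2, k3, k4, -, -, k7, -⟩ := hSLK L hLB
  have hne : (hs L s).Nonempty := k2 s hs0.le hsc
  have hconn : IsConnected (hs L s) := ⟨hne, (k1 s).2.isPreconnected⟩
  have hIcc := eq_Icc_of_connected_compact hconn (k1 s).1
  set α := sInf (hs L s) with hα
  set β := sSup (hs L s) with hβ
  have hαβ : α ≤ β := by
    rw [hIcc] at hne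
    exact nonempty_Icc.1 hne
  have hwd : wd L s = β - α := by
    unfold wd
    rw [hIcc, Real.volume_Icc, ENNReal.toReal_ofReal (by linarith)]
  rw [hwd]
  have hαm : α ∈ hs L s := by rw [hIcc]; exact left_mem_Icc.2 hαβ
  have hβm : β ∈ hs L s := by rw [hIcc]; exact right_mem_Icc.2 hαβ
  obtain ⟨t1, h11, h12⟩ := hαm
  obtain ⟨t2, h21, h22⟩ := hβm
  rcases hαβ.eq_or_lt with heq | hlt
  · rw [← heq, sub_self, mul_zero]
    have := hHex φ s (t1, α) (t1, α) (t1, α) (t1, α) hs0 h11 h11 h11 h12 h11 h12 le_rfl le_rfl le_rfl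
    simpa using this
  -- the direction of the chord
  set w : ℂ := ⟨t2 - t1, β - α⟩ with hw
  set ψ := Complex.arg w with hψ
  set ℓ := ‖w‖ with hℓ
  have hcos : ℓ * Real.cos ψ = t2 - t1 := Complex.norm_mul_cos_arg w
  have hsin : ℓ * Real.sin ψ = β - α := Complex.norm_mul_sin_arg w
  have hw0 : w ≠ 0 := by
    intro h
    have : w.im = 0 := by rw [h]; rfl
    have h2 : w.im = β - α := rfl
    linarith
  have hℓ0 : 0 < ℓ := norm_pos_iff.2 hw0
  have hsin0 : 0 < Real.sin ψ := by
    by_contra h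
    push Not at h
    have := mul_nonpos_of_nonneg_of_nonpos hℓ0.le h
    linarith
  have hcs : Real.cos ψ ^ 2 + Real.sin ψ ^ 2 = 1 := Real.cos_sq_add_sin_sq ψ
  -- rotated points
  have hR : ∀ x : P2, x ∈ L → rot (-ψ) x ∈ rb L ψ := by
    intro x hx
    show rot ψ (rot (-ψ) x) ∈ L
    rw [rot_inv_HXG]
    exact hx
  have hR2 : ∀ a : ℝ, (((rot (-ψ) (a, α)).1 + ℓ, (rot (-ψ) (a, α)).2) : P2) =
      rot (-ψ) (a + (t2 - t1), β) := by
    intro a
    rw [rot_neg_HXG, rot_neg_HXG, ← hcos]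
    have hb : β = α + ℓ * Real.sin ψ := by linarith
    ext
    · simp only
      rw [hb]
      linear_combination (-ℓ) * hcs
    · simp only
      rw [hb]
      ring
  -- the longest chord
  obtain ⟨τ0, hτ0⟩ := k2 c k7.le le_rfl
  have hτs : τ0 ∈ hs L s := k4 s c hs0.le hsc hτ0
  obtain ⟨t0, h01, h02⟩ := hτ0
  rw [hIcc] at hτs
  obtain ⟨hτ1, hτ2⟩ := hτs
  have hba : 0 < β - α := by linarith
  set lam := (τ0 - α) / (β - α) with hlam
  have hlam0 : 0 ≤ lam := div_nonneg (by linarith) hba.le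
  have hlam1 : lam ≤ 1 := by
    rw [hlam, div_le_one hba]
    linarith
  have hlamτ : lam * (β - α) = τ0 - α := div_mul_cancel₀ _ hba.ne'
  set m := t1 + lam * (t2 - t1) with hm
  have hmL : ((m, τ0) : P2) ∈ L := by
    have := hLB.cvx h11 h21 (show 0 ≤ 1 - lam by linarith) hlam0 (by ring)
    have e : (1 - lam) • ((t1, α) : P2) + lam • ((t2, β) : P2) = (m, τ0) := by
      ext
      · simp only [Prod.fst_add, Prod.smul_fst, smul_eq_mul]
        rw [hm]
        ring
      · simp only [Prod.snd_add, Prod.smul_snd, smul_eq_mul]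
        linarith
    rwa [e] at this
  have hmL' : ((m + s, τ0) : P2) ∈ L := by
    have := hLB.cvx h12 h22 (show 0 ≤ 1 - lam by linarith) hlam0 (by ring)
    have e : (1 - lam) • ((t1 + s, α) : P2) + lam • ((t2 + s, β) : P2) = (m + s, τ0) := by
      ext
      · simp only [Prod.fst_add, Prod.smul_fst, smul_eq_mul]
        rw [hm]
        ring
      · simp only [Prod.snd_add, Prod.smul_snd, smul_eq_mul]
        linarith
    rwa [e] at this
  have ht0 : t0 ≤ m := by
    by_contra h
    push Not at h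
    have h1 := k3 (t0 + c - m) (by linarith)
    have h2 : τ0 ∈ hs L (t0 + c - m) := by
      refine ⟨m, hmL, ?_⟩
      have : m + (t0 + c - m) = t0 + c := by ring
      rw [this]
      exact h02
    rw [h1] at h2
    exact h2
  have ht1 : m + s ≤ t0 + c := by
    by_contra h
    push Not at h
    have h1 := k3 (m + s - t0) (by linarith)
    have h2 : τ0 ∈ hs L (m + s - t0) := by
      refine ⟨t0, h01, ?_⟩
      have : t0 + (m + s - t0) = m + s := by ring
      rw [this]
      exact hmL'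
    rw [h1] at h2
    exact h2
  -- heights
  have hkey : τ0 * Real.cos ψ - m * Real.sin ψ = α * Real.cos ψ - t1 * Real.sin ψ := by
    have e1 : τ0 = α + lam * (ℓ * Real.sin ψ) := by rw [hsin]; linarith
    have e2 : m = t1 + lam * (ℓ * Real.cos ψ) := by rw [hcos]
    rw [e1, e2]
    ring
  have hmul1 : t0 * Real.sin ψ ≤ m * Real.sin ψ := mul_le_mul_of_nonneg_right ht0 hsin0.le
  have hmul2 : (m + s) * Real.sin ψ ≤ (t0 + c) * Real.sin ψ :=
    mul_le_mul_of_nonneg_right ht1 hsin0.le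
  have hss : 0 < s * Real.sin ψ := mul_pos hs0 hsin0
  have hH := hHexL ψ ℓ (rot (-ψ) (t0, τ0)) (rot (-ψ) (t0 + c, τ0)) (rot (-ψ) (t1 + s, α))
    (rot (-ψ) (t1, α)) hℓ0 (hR _ h01) (hR _ h02) (hR _ h12) (by
      rw [hR2]
      have : t1 + s + (t2 - t1) = t2 + s := by ring
      rw [this]
      exact hR _ h22) (hR _ h11) (by
      rw [hR2]
      have : t1 + (t2 - t1) = t2 := by ring
      rw [this]
      exact hR _ h21) (by
      simp only [rot_neg_HXG]
      linarith) (by
      simp only [rot_neg_HXG]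
      linarith) (by
      simp only [rot_neg_HXG]
      linarith)
  simp only [rot_neg_HXG] at hH
  have e : ℓ * (τ0 * Real.cos ψ - t0 * Real.sin ψ - (τ0 * Real.cos ψ - (t0 + c) * Real.sin ψ) +
      (α * Real.cos ψ - t1 * Real.sin ψ - (α * Real.cos ψ - (t1 + s) * Real.sin ψ))) =
      (s + c) * (β - α) := by
    rw [← hsin]
    ring
  linarith

end Pool.Agent.Helper81.CB
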